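import Mathlib

namespace Pool.Agent.Helper83.SE

/-- The combinatorial core. `x, a` are the two last relevant letters of the input word, `b, r` the
two first relevant letters of the output word, `y` is the block of middle letters, `pc` forgets its
last letter, `pd` forgets its first letter. -/
theorem core {W L Y C D : Type*} (x a b r : W → L) (y : W → Y) (pc : Y → C) (pd : Y → D)
    (l0 l1 l2 : L) (h01 : l0 ≠ l1) (h02 : l0 ≠ l2) (h12 : l1 ≠ l2)
    (hY : ∀ η η', pc η = pc η' → pd η = pd η' → η = η')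
    (hA : ∀ α η, ∃ w, a w = α ∧ y w = η)
    (hB : ∀ w w', b w = b w' → y w = y w' → w = w')
    (hCs : ∀ p α κ, ∃ w, x w = p ∧ a w = α ∧ pc (y w) = κ)
    (hCi : ∀ w w', x w = x w' → a w = a w' → pc (y w) = pc (y w') → w = w')
    (hDs : ∀ β ρ δ, ∃ w, b w = β ∧ r w = ρ ∧ pd (y w) = δ)
    (hDi : ∀ w w', b w = b w' → r w = r w' → pd (y w) = pd (y w') → w = w')
    (w2 w0 : W) (hw2a : a w2 = l2) (hw2b : b w2 = l0) (hw0a : a w0 = l0) (hw0b : b w0 = l2)
    -- group `a = l1`
    (h1 : ∀ w, a w = l1 → b w = l0 ∨ (x w = l0 ∧ b w = l2 ∧ r w = l0))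
    (h1' : ∀ w, x w = l0 → a w = l1 → b w = l2)
    (h1'' : ∀ w, b w = l2 → r w = l0 → a w = l1)
    -- group `a = l2`
    (h2 : ∀ w, a w = l2 → w = w2 ∨ b w = l2 ∨ (x w = l1 ∧ b w = l1 ∧ r w = l0)) : False := by
  -- `y w2` is attained on the class `S₁`
  obtain ⟨s, hsa, hsy⟩ := hA l1 (y w2)
  have hsB : b s = l2 := by
    rcases h1 s hsa with h | h
    · have := hB s w2 (h.trans hw2b.symm) hsy
      rw [this] at hsa
      exact absurd (hsa.symm.trans hw2a) h12
    · exact h.2.1
  -- key contradiction: `y w2 ≠ y w0`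
  have hne : y w2 ≠ y w0 := by
    intro h
    have := hB s w0 (hsB.trans hw0b.symm) (hsy.trans h)
    rw [this] at hsa
    exact h01 (hw0a.symm.trans hsa)
  -- general transfer: a row of `B₂` outside `A₂` has its value attained in `S₈` or at `w2`
  have transfer : ∀ t, b t = l2 → a t ≠ l2 → ∃ q, y q = y t ∧
      (q = w2 ∨ (x q = l1 ∧ a q = l2 ∧ b q = l1 ∧ r q = l0)) := by
    intro t htb hta
    obtain ⟨q, hqa, hqy⟩ := hA l2 (y t)
    refine ⟨q, hqy, ?_⟩
    rcases h2 q hqa with h | h | h
    · exact Or.inl h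
    · have := hB q t (h.trans htb.symm) hqy
      exact absurd (this ▸ hqa) hta
    · exact Or.inr ⟨h.1, hqa, h.2.1, h.2.2⟩
  obtain ⟨s', hs'y, hs'⟩ := transfer w0 hw0b (by rw [hw0a]; exact h02)
  have hs' : x s' = l1 ∧ a s' = l2 ∧ b s' = l1 ∧ r s' = l0 := by
    rcases hs' with h | h
    · rw [h] at hs'y
      exact absurd hs'y hne
    · exact h
  apply hne
  apply hY
  · -- first letters
    obtain ⟨t, htx, hta, htc⟩ := hCs l0 l1 (pc (y w0))
    have htb : b t = l2 := h1' t htx hta
    by_cases hts : y t = y w2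
    · rw [← hts, htc]
    · exfalso
      obtain ⟨q, hqy, hq⟩ := transfer t htb (by rw [hta]; exact h12)
      rcases hq with rfl | hq
      · exact hts hqy.symm
      · have hqs : q = s' := by
          apply hCi q s' (hq.1.trans hs'.1.symm) (hq.2.1.trans hs'.2.1.symm)
          rw [hqy, htc, hs'y]
        have : t = w0 := hB t w0 (htb.trans hw0b.symm) (by rw [← hqy, hqs, hs'y])
        rw [this] at hta
        exact h01 (hw0a.symm.trans hta)
  · obtain ⟨t, htb, htr, htd⟩ := hDs l2 l0 (pd (y w0))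
    have hta : a t = l1 := h1'' t htb htr
    by_cases hts : y t = y w2
    · rw [← hts, htd]
    · exfalso
      obtain ⟨q, hqy, hq⟩ := transfer t htb (by rw [hta]; exact h12)
      rcases hq with rfl | hq
      · exact hts hqy.symm
      · have hqs : q = s' := by
          apply hDi q s' (hq.2.2.1.trans hs'.2.2.1.symm) (hq.2.2.2.trans hs'.2.2.2.symm)
          rw [hqy, htd, hs'y]
        have : t = w0 := hB t w0 (htb.trans hw0b.symm) (by rw [← hqy, hqs, hs'y])
        rw [this] at hta
        exact h01 (hw0a.symm.trans hta)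

end Pool.Agent.Helper83.SE
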