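import Mathlib

namespace Pool.Agent.Helper83.SE

variable {L : Type*} [DecidableEq L] (l0 l1 l2 : L)

/-- the block map `(x, a) ↦ (b, r)` -/
def betaFun (q : L × L) : L × L :=
  if q.2 = l0 then (if q.1 = l0 then (l0, l0) else (l1, q.1))
  else if q.2 = l1 then (if q.1 = l0 then (l2, l0) else (l0, q.1))
  else if q.2 = l2 then
    (if q.1 = l0 then (l2, l1) else if q.1 = l1 then (l1, l0) else (l2, q.1))
  else (q.2, q.1)

theorem betaFun_injective (h01 : l0 ≠ l1) (h02 : l0 ≠ l2) (h12 : l1 ≠ l2) :
    Function.Injective (betaFun l0 l1 l2) := by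
  rintro ⟨p, a⟩ ⟨p', a'⟩ h
  simp only [betaFun] at h
  split_ifs at h <;> simp_all

theorem betaFun_eq (h01 : l0 ≠ l1) (h02 : l0 ≠ l2) (h12 : l1 ≠ l2) (x a : L)
    (h : betaFun l0 l1 l2 (x, a) = (l2, l0)) : a = l1 := by
  simp only [betaFun] at h
  split_ifs at h <;> simp_all

/-- The block permutation. -/
noncomputable def beta [Finite L] (h01 : l0 ≠ l1) (h02 : l0 ≠ l2) (h12 : l1 ≠ l2) :
    Equiv.Perm (L × L) :=
  Equiv.ofBijective (betaFun l0 l1 l2)
    (Finite.injective_iff_bijective.1 (betaFun_injective l0 l1 l2 h01 h02 h12))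

theorem exists_perm_two {n : ℕ} (p q p' q' : Fin n) (h : p ≠ q) (h' : p' ≠ q') :
    ∃ s : Equiv.Perm (Fin n), s p = p' ∧ s q = q' := by
  refine ⟨Equiv.swap (Equiv.swap p p' q) q' * Equiv.swap p p', ?_, ?_⟩
  · rw [Equiv.Perm.mul_apply, Equiv.swap_apply_left, Equiv.swap_apply_of_ne_of_ne _ h']
    intro h2
    apply h
    have := congrArg (Equiv.swap p p') h2
    simpa using this
  · rw [Equiv.Perm.mul_apply, Equiv.swap_apply_left]

/-- Apply a permutation of pairs to the letters at positions `p, q`, writing the two components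
of the result at positions `q, p`. -/
def pairPerm {n : ℕ} (p q : Fin n) (hpq : p ≠ q) (β : Equiv.Perm (L × L)) :
    Equiv.Perm (Fin n → L) where
  toFun v := fun i => if i = q then (β (v p, v q)).1 else if i = p then (β (v p, v q)).2 else v i
  invFun z := fun i => if i = q then (β.symm (z q, z p)).2
    else if i = p then (β.symm (z q, z p)).1 else z i
  left_inv v := by
    funext i
    simp only [if_neg hpq, if_true]
    by_cases h1 : i = q
    · subst h1; simp
    · by_cases h2 : i = p
      · subst h2; simp [hpq]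
      · simp [h1, h2]
  right_inv z := by
    funext i
    simp only [if_neg hpq, if_true]
    by_cases h1 : i = q
    · subst h1; simp
    · by_cases h2 : i = p
      · subst h2; simp [hpq]
      · simp [h1, h2]

omit [DecidableEq L] in
/-- There is a permutation of the words such that the pair of output letters at positions
`(pb, pr)` is the image under `β` of the pair of input letters at positions `(px, pa)`. -/
theorem exists_block {n : ℕ} (px pa pb pr : Fin n) (h1 : px ≠ pa) (h2 : pr ≠ pb)
    (β : Equiv.Perm (L × L)) :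
    ∃ π : Equiv.Perm (Fin n → L), ∀ w, (π w pb, π w pr) = β (w px, w pa) := by
  obtain ⟨s, hs1, hs2⟩ := exists_perm_two pr pb px pa h2 h1
  refine ⟨(Equiv.arrowCongr s.symm (Equiv.refl L)).trans (pairPerm pr pb h2 β), fun w => ?_⟩
  simp [pairPerm, h2, hs1, hs2]

end Pool.Agent.Helper83.SE
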