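import Mathlib

namespace Pool.Agent.Helper83.SE

/-- One half of the argument for the binary alphabet. -/
theorem half {W Y A B Q' : Type*} (y : W → Y) (P : Y → A) (pr : A → B) (Q : Y → Q')
    (flip : Y → Y) (hflipQ : ∀ η, Q (flip η) = Q η) (hflipne : ∀ η, flip η ≠ η)
    (hflipinj : Function.Injective flip)
    (hflipp : ∀ η η', pr (P η) = pr (P η') → pr (P (flip η)) = pr (P (flip η')))
    (E C C' F F' D : W → Prop) (a b : W)
    (h1 : ∀ τ, ∃ w, E w ∧ P (y w) = τ)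
    (h2 : ∀ w w', E w → E w' → Q (y w) = Q (y w') → w = w')
    (haC : C a) (haD : D a)
    (h3 : ∀ w w', C w → C w' → pr (P (y w)) = pr (P (y w')) → w = w')
    (h4 : ∀ w w', F w → F w' → pr (P (y w)) = pr (P (y w')) → w = w')
    (h5 : ∀ w w', D w → F' w' → Q (y w) ≠ Q (y w'))
    (h6 : ∀ w, E w → ∃ r, (C r ∨ C' r) ∧ y r = y w)
    (h7 : ∀ η, (∀ w, E w → y w ≠ η) → ∃ r, (F r ∨ F' r) ∧ y r = η)
    (h8 : ∃ w, E w ∧ y w = y a)
    (h9 : ∀ r, C' r → r = b ∨ D r)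
    (τ : A) (hτ : pr τ = pr (P (y a))) (hτne : τ ≠ P (y a)) : P (y b) = τ := by
  obtain ⟨w, hwE, hw⟩ := h1 τ
  obtain ⟨r, hr, hry⟩ := h6 w hwE
  have hrP : P (y r) = τ := by rw [hry, hw]
  have hrne : y r ≠ y a := by
    intro h
    apply hτne
    rw [← hrP, h]
  have hr' : C' r := by
    rcases hr with hr | hr
    · exact absurd (congrArg y (h3 r a hr haC (by rw [hrP, hτ]))) hrne
    · exact hr
  rcases h9 r hr' with rfl | hrD
  · exact hrP
  exfalso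
  -- flipping the first letter leads outside `y(E)`
  have key : ∀ s, (∃ w, E w ∧ y w = y s) → D s → ∃ ρ, F ρ ∧ y ρ = flip (y s) := by
    rintro s ⟨w0, hw0, hw0s⟩ hs
    obtain ⟨ρ, hρ, hρy⟩ := h7 (flip (y s)) (by
      intro w1 hw1 h
      have : w0 = w1 := h2 w0 w1 hw0 hw1 (by rw [hw0s, h, hflipQ])
      rw [← this, hw0s] at h
      exact hflipne _ h.symm)
    refine ⟨ρ, ?_, hρy⟩
    rcases hρ with hρ | hρ
    · exact hρ
    · exact absurd (by rw [hρy, hflipQ]) (h5 s ρ hs hρ)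
  obtain ⟨ρ, hρ, hρy⟩ := key a h8 haD
  obtain ⟨ρ', hρ', hρy'⟩ := key r ⟨w, hwE, hry.symm⟩ hrD
  have : ρ = ρ' := by
    apply h4 ρ ρ' hρ hρ'
    rw [hρy, hρy']
    apply hflipp
    rw [hrP, hτ]
  apply hrne
  apply hflipinj
  rw [← hρy, ← hρy', this]

end Pool.Agent.Helper83.SE
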