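import Mathlib

namespace Pool.Agent.Helper83.SE

/-- A permutation of positions extending a given partial matching. -/
theorem exists_perm_of_injective {r n : ℕ} (e e' : Fin r → Fin n) (he : Function.Injective e)
    (he' : Function.Injective e') : ∃ s : Equiv.Perm (Fin n), ∀ j, s (e' j) = e j := by
  classical
  let f : {x // x ∈ Set.range e'} ≃ {x // x ∈ Set.range e} :=
    (Equiv.ofInjective e' he').symm.trans (Equiv.ofInjective e he)
  refine ⟨f.extendSubtype, fun j => ?_⟩
  have h := Equiv.extendSubtype_apply_of_mem f (e' j) ⟨j, rfl⟩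
  rw [h]
  change ((Equiv.ofInjective e he) ((Equiv.ofInjective e' he').symm ⟨e' j, _⟩) : Fin n) = e j
  rw [Equiv.ofInjective_symm_apply]
  rfl

/-- Apply a permutation of `r`-tuples to the letters at the positions `e 0, ..., e (r-1)`. -/
noncomputable def blockFun {L : Type*} {r n : ℕ} (e : Fin r → Fin n) (β : (Fin r → L) → (Fin r → L))
    (w : Fin n → L) : Fin n → L := by
  classical
  exact fun i => if h : ∃ j, e j = i then β (fun j => w (e j)) h.choose else w i

theorem blockFun_apply {L : Type*} {r n : ℕ} (e : Fin r → Fin n) (he : Function.Injective e)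
    (β : (Fin r → L) → (Fin r → L)) (w : Fin n → L) (j : Fin r) :
    blockFun e β w (e j) = β (fun j => w (e j)) j := by
  classical
  unfold blockFun
  have h : ∃ j', e j' = e j := ⟨j, rfl⟩
  rw [dif_pos h]
  congr 1
  exact he h.choose_spec

theorem blockFun_apply_of_not {L : Type*} {r n : ℕ} (e : Fin r → Fin n)
    (β : (Fin r → L) → (Fin r → L)) (w : Fin n → L) (i : Fin n) (h : ¬ ∃ j, e j = i) :
    blockFun e β w i = w i := by
  classical
  unfold blockFun
  rw [dif_neg h]

theorem blockFun_comp {L : Type*} {r n : ℕ} (e : Fin r → Fin n) (he : Function.Injective e)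
    (β γ : (Fin r → L) → (Fin r → L)) (h : ∀ u, γ (β u) = u) (w : Fin n → L) :
    blockFun e γ (blockFun e β w) = w := by
  funext i
  by_cases hi : ∃ j, e j = i
  · obtain ⟨j, rfl⟩ := hi
    rw [blockFun_apply e he]
    have : (fun j => blockFun e β w (e j)) = β (fun j => w (e j)) := by
      funext j
      exact blockFun_apply e he β w j
    rw [this, h]
  · rw [blockFun_apply_of_not _ _ _ _ hi, blockFun_apply_of_not _ _ _ _ hi]

/-- There is a permutation of the words such that the output letters at positions `e'` are the image
under `β` of the input letters at positions `e`. -/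
theorem exists_block_tuple {L : Type*} {r n : ℕ} (e e' : Fin r → Fin n)
    (he : Function.Injective e) (he' : Function.Injective e') (β : Equiv.Perm (Fin r → L)) :
    ∃ π : Equiv.Perm (Fin n → L), ∀ w j, π w (e' j) = β (fun j => w (e j)) j := by
  obtain ⟨s, hs⟩ := exists_perm_of_injective e e' he he'
  let ρ : Equiv.Perm (Fin n → L) :=
    { toFun := blockFun e β
      invFun := blockFun e β.symm
      left_inv := fun w => blockFun_comp e he β β.symm (fun u => β.symm_apply_apply u) w
      right_inv := fun w => blockFun_comp e he β.symm β (fun u => β.apply_symm_apply u) w }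
  refine ⟨ρ.trans (Equiv.arrowCongr s.symm (Equiv.refl L)), fun w j => ?_⟩
  change ρ w (s (e' j)) = _
  rw [hs]
  exact blockFun_apply e he β w j

end Pool.Agent.Helper83.SE
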