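import Mathlib
import Pool.Agent.Helper83.SE3

namespace Pool.Agent.Helper83.SE

/-- The block map on three letters of the binary alphabet. -/
def tab (p q r : Fin 2) : Fin 2 × Fin 2 × Fin 2 :=
  if p = 0 then
    (if q = 0 then (if r = 0 then (0, 0, 0) else (0, 0, 1))
      else (if r = 0 then (0, 1, 0) else (1, 0, 0)))
  else
    (if q = 0 then (if r = 0 then (1, 1, 0) else (0, 1, 1))
      else (if r = 0 then (1, 1, 1) else (1, 0, 1)))

/-- The same map on triples. -/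
def tabFun (u : Fin 3 → Fin 2) : Fin 3 → Fin 2 :=
  ![(tab (u 0) (u 1) (u 2)).1, (tab (u 0) (u 1) (u 2)).2.1, (tab (u 0) (u 1) (u 2)).2.2]

theorem tabFun_injective : Function.Injective tabFun := by decide

/-- The map on triples as a permutation. -/
noncomputable def tabPerm : Equiv.Perm (Fin 3 → Fin 2) :=
  Equiv.ofBijective tabFun (Finite.injective_iff_bijective.1 tabFun_injective)

theorem tab1 : ∀ p q r s t z : Fin 2, tab p q r = (s, t, z) →
    ((q = 1 ∧ r = 1) ↔ (s = 1 ∧ t = 0)) := by decide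

theorem tab2 : ∀ p q r s t z : Fin 2, tab p q r = (s, t, z) →
    (r = 0 → s = 0 → (p = 0 ∧ ((q = 0 ∧ t = 0 ∧ z = 0) ∨ (q = 1 ∧ t = 1 ∧ z = 0)))) := by
  decide

theorem tab3 : ∀ p q r s t z : Fin 2, tab p q r = (s, t, z) →
    (r = 1 → s = 0 → (q = 0 ∧ ((p = 0 ∧ t = 0 ∧ z = 1) ∨ (p = 1 ∧ t = 1 ∧ z = 1)))) := by
  decide

theorem tab4 : ∀ p q r s t z : Fin 2, tab p q r = (s, t, z) →
    (s = 1 → ((q = 1 ∧ r = 1) ∨ (p = 1 ∧ q = 0 ∧ r = 0 ∧ t = 1 ∧ z = 0) ∨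
      (p = 1 ∧ q = 1 ∧ r = 0 ∧ t = 1 ∧ z = 1))) := by
  decide

theorem tab5 : ∀ p q r s t z : Fin 2, tab p q r = (s, t, z) →
    (s = 0 → z = 0 → t = 0 → (p = 0 ∧ q = 0 ∧ r = 0)) := by
  decide

/-- Drop the last letter. -/
def dropLast {s t : ℕ} (h : t + 1 = s) (η : Fin s → Fin 2) : Fin t → Fin 2 :=
  fun i => η ⟨i, by omega⟩

/-- Drop the first letter. -/
def dropFirst {s t : ℕ} (h : t + 1 = s) (η : Fin s → Fin 2) : Fin t → Fin 2 :=
  fun i => η ⟨i + 1, by omega⟩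

/-- Change the letter at position `p`. -/
def flipAt {s : ℕ} (p : ℕ) (η : Fin s → Fin 2) : Fin s → Fin 2 :=
  fun i => if (i : ℕ) = p then 1 - η i else η i

theorem one_sub_ne (x : Fin 2) : 1 - x ≠ x := by revert x; decide

theorem one_sub_inj (x y : Fin 2) (h : 1 - x = 1 - y) : x = y := by revert x y; decide

theorem flipAt_injective {s : ℕ} (p : ℕ) : Function.Injective (flipAt (s := s) p) := by
  intro η η' h
  funext i
  have := congrFun h i
  simp only [flipAt] at this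
  split_ifs at this with hi
  · exact one_sub_inj _ _ this
  · exact this

theorem flipAt_ne {s : ℕ} (p : ℕ) (hp : p < s) (η : Fin s → Fin 2) : flipAt p η ≠ η := by
  intro h
  have := congrFun h ⟨p, hp⟩
  simp only [flipAt, if_true] at this
  exact one_sub_ne _ this

/-- The core of the argument for the binary alphabet. -/
theorem core2 {n : ℕ} (hn : 5 ≤ n) {W : Type*} (u3 u2 u1 v1 v2 v3 : W → Fin 2)
    (y : W → (Fin (n - 1) → Fin 2)) (a b : W)
    (ha3 : u3 a = 0) (ha2 : u2 a = 0) (ha1 : u1 a = 0)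
    (ka1 : v1 a = 0) (ka2 : v2 a = 1) (ka3 : v3 a = 0)
    (hb3 : u3 b = 0) (hb2 : u2 b = 1) (hb1 : u1 b = 0)
    (kb1 : v1 b = 0) (kb2 : v2 b = 0) (kb3 : v3 b = 0)
    (hg : ∀ w, w ≠ a → w ≠ b → tab (u3 w) (u2 w) (u1 w) = (v1 w, v2 w, v3 w))
    -- window `n - 4`
    (hA : ∀ w w', u3 w = u3 w' → u2 w = u2 w' → u1 w = u1 w' →
      (∀ i : ℕ, ∀ hi : i < n - 3, y w ⟨i, by omega⟩ = y w' ⟨i, by omega⟩) → w = w')
    -- window `n - 3`
    (hBi : ∀ w w', u2 w = u2 w' → u1 w = u1 w' →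
      (∀ i : ℕ, ∀ hi : i < n - 2, y w ⟨i, by omega⟩ = y w' ⟨i, by omega⟩) → w = w')
    (hBs : ∀ p q (τ : Fin (n - 2) → Fin 2), ∃ w, u2 w = p ∧ u1 w = q ∧
      ∀ i : ℕ, ∀ hi : i < n - 2, y w ⟨i, by omega⟩ = τ ⟨i, hi⟩)
    -- window `n - 2`
    (hCs : ∀ q η, ∃ w, u1 w = q ∧ y w = η)
    -- window `n - 1`
    (hDs : ∀ q η, ∃ w, v1 w = q ∧ y w = η)
    (hDi : ∀ w w', v1 w = v1 w' → y w = y w' → w = w')
    -- window `n`
    (hEi : ∀ w w', v1 w = v1 w' → v2 w = v2 w' →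
      (∀ i : ℕ, ∀ hi : i < n - 2, y w ⟨i + 1, by omega⟩ = y w' ⟨i + 1, by omega⟩) → w = w')
    (hEs : ∀ p q (τ : Fin (n - 2) → Fin 2), ∃ w, v1 w = p ∧ v2 w = q ∧
      ∀ i : ℕ, ∀ hi : i < n - 2, y w ⟨i + 1, by omega⟩ = τ ⟨i, hi⟩)
    -- window `n + 1`
    (hF : ∀ w w', v1 w = v1 w' → v2 w = v2 w' → v3 w = v3 w' →
      (∀ i : ℕ, ∀ hi : i < n - 3, y w ⟨i + 2, by omega⟩ = y w' ⟨i + 2, by omega⟩) → w = w') :
    False := by
  -- the classes
  have hab : a ≠ b := by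
    rintro rfl
    rw [ka2] at kb2
    exact absurd kb2 (by decide)
  have tabc : ∀ p q r s t z : Fin 2, tab p q r = (s, t, z) →
      ((q = 1 ∧ r = 1) ↔ (s = 1 ∧ t = 0)) ∧
      (r = 0 → s = 0 → (p = 0 ∧ ((q = 0 ∧ t = 0 ∧ z = 0) ∨ (q = 1 ∧ t = 1 ∧ z = 0)))) ∧
      (r = 1 → s = 0 → (q = 0 ∧ ((p = 0 ∧ t = 0 ∧ z = 1) ∨ (p = 1 ∧ t = 1 ∧ z = 1)))) ∧
      (s = 1 → ((q = 1 ∧ r = 1) ∨ (p = 1 ∧ q = 0 ∧ r = 0 ∧ t = 1 ∧ z = 0) ∨
        (p = 1 ∧ q = 1 ∧ r = 0 ∧ t = 1 ∧ z = 1))) ∧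
      (s = 0 → z = 0 → t = 0 → (p = 0 ∧ q = 0 ∧ r = 0)) := by
    intro p q r s t z h
    exact ⟨tab1 p q r s t z h, tab2 p q r s t z h, tab3 p q r s t z h, tab4 p q r s t z h,
      tab5 p q r s t z h⟩
  have fin2 : ∀ x : Fin 2, x = 0 ∨ x = 1 := by decide
  have c : ∀ w, w ≠ a → w ≠ b → _ := fun w h h' => tabc _ _ _ _ _ _ (hg w h h')
  -- `E`
  have hE : ∀ w, (u2 w = 1 ∧ u1 w = 1) ↔ (v1 w = 1 ∧ v2 w = 0) := by
    intro w
    by_cases h : w = a
    · subst h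
      rw [ha2, ha1, ka1, ka2]
      decide
    by_cases h' : w = b
    · subst h'
      rw [hb2, hb1, kb1, kb2]
      decide
    exact (c w h h').1
  have ee : ∀ w, u2 w = 1 ∧ u1 w = 1 → w ≠ a ∧ w ≠ b := by
    rintro w ⟨h, h'⟩
    constructor
    · rintro rfl
      rw [ha1] at h'
      exact absurd h' (by decide)
    · rintro rfl
      rw [hb1] at h'
      exact absurd h' (by decide)
  -- `u1 = 0`, `v1 = 0`
  have hR0 : ∀ w, (u2 w = 1 ∧ u1 w = 1) → ∃ r, u3 r = 0 ∧ u1 r = 0 ∧ v1 r = 0 ∧ v3 r = 0 ∧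
      y r = y w := by
    intro w hw
    obtain ⟨r, hr, hry⟩ := hCs 0 (y w)
    by_cases h : r = a
    · subst h
      exact ⟨r, ha3, ha1, ka1, ka3, hry⟩
    by_cases h' : r = b
    · subst h'
      exact ⟨r, hb3, hb1, kb1, kb3, hry⟩
    have hc := c r h h'
    rcases fin2 (v1 r) with hv | hv
    · have h2 := hc.2.1 hr hv
      refine ⟨r, h2.1, hr, hv, ?_, hry⟩
      rcases h2.2 with h3 | h3
      · exact h3.2.2
      · exact h3.2.2
    · have := hDi r w (hv.trans ((hE w).1 hw).1.symm) hry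
      rw [this, hw.2] at hr
      exact absurd hr (by decide)
  -- surjectivity outside `E`
  have hR1 : ∀ η, (∀ w, (u2 w = 1 ∧ u1 w = 1) → y w ≠ η) →
      ∃ r, (u2 r = 0 ∧ u1 r = 1) ∧ v1 r = 0 ∧ y r = η ∧ r ≠ a ∧ r ≠ b ∧
        ((u3 r = 0 ∧ v2 r = 0 ∧ v3 r = 1) ∨ (u3 r = 1 ∧ v2 r = 1 ∧ v3 r = 1)) := by
    intro η hη
    obtain ⟨r, hr, hry⟩ := hCs 1 η
    have h : r ≠ a := by
      rintro rfl
      rw [ha1] at hr
      exact absurd hr (by decide)
    have h' : r ≠ b := by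
      rintro rfl
      rw [hb1] at hr
      exact absurd hr (by decide)
    have hc := c r h h'
    rcases fin2 (u2 r) with hu | hu
    · rcases fin2 (v1 r) with hv | hv
      · have h2 := hc.2.2.1 hr hv
        exact ⟨r, ⟨hu, hr⟩, hv, hry, h, h', h2.2⟩
      · exfalso
        rcases hc.2.2.2.1 hv with h2 | h2 | h2
        · rw [hu] at h2
          exact absurd h2.1 (by decide)
        · rw [hr] at h2
          exact absurd h2.2.2.1 (by decide)
        · rw [hr] at h2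
          exact absurd h2.2.2.1 (by decide)
    · exact absurd hry (hη r ⟨hu, hr⟩)
  have hR2 : ∀ η, (∀ w, (u2 w = 1 ∧ u1 w = 1) → y w ≠ η) →
      ∃ r, v1 r = 1 ∧ v2 r = 1 ∧ u3 r = 1 ∧ u1 r = 0 ∧ y r = η ∧ r ≠ a ∧ r ≠ b ∧
        ((u2 r = 0 ∧ v3 r = 0) ∨ (u2 r = 1 ∧ v3 r = 1)) := by
    intro η hη
    obtain ⟨r, hr, hry⟩ := hDs 1 η
    have h : r ≠ a := by
      rintro rfl
      rw [ka1] at hr
      exact absurd hr (by decide)
    have h' : r ≠ b := by
      rintro rfl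
      rw [kb1] at hr
      exact absurd hr (by decide)
    have hc := c r h h'
    rcases hc.2.2.2.1 hr with h2 | h2 | h2
    · exact absurd hry (hη r h2)
    · exact ⟨r, hr, h2.2.2.2.1, h2.1, h2.2.2.1, hry, h, h', Or.inl ⟨h2.2.1, h2.2.2.2.2⟩⟩
    · exact ⟨r, hr, h2.2.2.2.1, h2.1, h2.2.2.1, hry, h, h', Or.inr ⟨h2.2.1, h2.2.2.2.2⟩⟩
  -- `h8`
  have h8 : ∃ w, (u2 w = 1 ∧ u1 w = 1) ∧ y w = y a := by
    by_contra hcon
    have hcon' : ∀ w, (u2 w = 1 ∧ u1 w = 1) → y w ≠ y a := by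
      intro w hw h
      exact hcon ⟨w, hw, h⟩
    obtain ⟨r, -, hv, hry, hra, -⟩ := hR1 (y a) hcon'
    exact hra (hDi r a (hv.trans ka1.symm) hry)
  have e1 : n - 2 + 1 = n - 1 := by omega
  have e2 : n - 3 + 1 = n - 2 := by omega
  -- first half
  have half1 : dropLast e1 (y b) = flipAt (n - 3) (dropLast e1 (y a)) := by
    refine half y (dropLast e1) (dropLast e2) (dropFirst e1) (flipAt 0) ?_ ?_ ?_ ?_
      (fun w => u2 w = 1 ∧ u1 w = 1)
      (fun w => u3 w = 0 ∧ u2 w = 0 ∧ u1 w = 0)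
      (fun w => u3 w = 0 ∧ u2 w = 1 ∧ u1 w = 0)
      (fun w => u3 w = 0 ∧ u2 w = 0 ∧ u1 w = 1)
      (fun w => u3 w = 1 ∧ u2 w = 0 ∧ u1 w = 1)
      (fun w => v1 w = 0 ∧ v2 w = 1 ∧ v3 w = 0) a b ?_ ?_ ⟨ha3, ha2, ha1⟩ ⟨ka1, ka2, ka3⟩
      ?_ ?_ ?_ ?_ ?_ h8 ?_ _ ?_ ?_
    · intro η
      funext i
      simp [dropFirst, flipAt]
    · exact fun η => flipAt_ne 0 (by omega) η
    · exact flipAt_injective 0
    · intro η η' h
      funext i
      have := congrFun h i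
      simp only [dropLast, flipAt] at this ⊢
      rw [this]
    · intro τ
      obtain ⟨w, h, h', hw⟩ := hBs 1 1 τ
      refine ⟨w, ⟨h, h'⟩, ?_⟩
      funext i
      exact hw i i.2
    · intro w w' hw hw' h
      rw [hE] at hw hw'
      refine hEi w w' (hw.1.trans hw'.1.symm) (hw.2.trans hw'.2.symm) fun i hi => ?_
      exact congrFun h ⟨i, hi⟩
    · rintro w w' ⟨h3, h2, h1⟩ ⟨h3', h2', h1'⟩ h
      refine hA w w' (h3.trans h3'.symm) (h2.trans h2'.symm) (h1.trans h1'.symm) fun i hi => ?_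
      exact congrFun h ⟨i, hi⟩
    · rintro w w' ⟨h3, h2, h1⟩ ⟨h3', h2', h1'⟩ h
      refine hA w w' (h3.trans h3'.symm) (h2.trans h2'.symm) (h1.trans h1'.symm) fun i hi => ?_
      exact congrFun h ⟨i, hi⟩
    · rintro w w' ⟨k1, k2, k3⟩ ⟨h3', h2', h1'⟩ h
      have h : w' ≠ a := by
        rintro rfl
        rw [ha1] at h1'
        exact absurd h1' (by decide)
      have h' : w' ≠ b := by
        rintro rfl
        rw [hb1] at h1'
        exact absurd h1' (by decide)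
      have h2 := hg w' h h'
      rw [h3', h2', h1'] at h2
      have h4 : tab 1 0 1 = (0, 1, 1) := rfl
      rw [h4] at h2
      simp only [Prod.mk.injEq] at h2
      have : w = w' := by
        refine hEi w w' (k1.trans h2.1) (k2.trans h2.2.1) fun i hi => ?_
        rename_i hh
        exact congrFun hh ⟨i, hi⟩
      rw [this, ← h2.2.2] at k3
      exact absurd k3 (by decide)
    · intro w hw
      obtain ⟨r, h3, h1, -, -, hry⟩ := hR0 w hw
      refine ⟨r, ?_, hry⟩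
      rcases fin2 (u2 r) with h | h
      · exact Or.inl ⟨h3, h, h1⟩
      · exact Or.inr ⟨h3, h, h1⟩
    · intro η hη
      obtain ⟨r, ⟨h2, h1⟩, -, hry, -, -, h⟩ := hR1 η hη
      refine ⟨r, ?_, hry⟩
      rcases h with h | h
      · exact Or.inl ⟨h.1, h2, h1⟩
      · exact Or.inr ⟨h.1, h2, h1⟩
    · rintro r ⟨h3, h2, h1⟩
      by_cases h : r = b
      · exact Or.inl h
      right
      have h' : r ≠ a := by
        rintro rfl
        rw [ha2] at h2
        exact absurd h2 (by decide)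
      have h5 := hg r h' h
      rw [h3, h2, h1] at h5
      have h4 : tab 0 1 0 = (0, 1, 0) := rfl
      rw [h4] at h5
      simp only [Prod.mk.injEq] at h5
      exact ⟨h5.1.symm, h5.2.1.symm, h5.2.2.symm⟩
    · funext i
      have := i.2
      simp only [dropLast, flipAt]
      rw [if_neg (by omega)]
    · exact flipAt_ne _ (by omega) _
  -- second half
  have half2 : dropFirst e1 (y b) = flipAt 0 (dropFirst e1 (y a)) := by
    refine half y (dropFirst e1) (dropFirst e2) (dropLast e1) (flipAt (n - 2)) ?_ ?_ ?_ ?_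
      (fun w => u2 w = 1 ∧ u1 w = 1)
      (fun w => v1 w = 0 ∧ v2 w = 1 ∧ v3 w = 0)
      (fun w => v1 w = 0 ∧ v2 w = 0 ∧ v3 w = 0)
      (fun w => v1 w = 1 ∧ v2 w = 1 ∧ v3 w = 1)
      (fun w => u3 w = 1 ∧ u2 w = 0 ∧ u1 w = 0)
      (fun w => u3 w = 0 ∧ u2 w = 0 ∧ u1 w = 0) a b ?_ ?_ ⟨ka1, ka2, ka3⟩ ⟨ha3, ha2, ha1⟩
      ?_ ?_ ?_ ?_ ?_ h8 ?_ _ ?_ ?_
    · intro η
      funext i
      have := i.2
      simp only [dropLast, flipAt]
      rw [if_neg (by omega)]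
    · exact fun η => flipAt_ne (n - 2) (by omega) η
    · exact flipAt_injective (n - 2)
    · intro η η' h
      funext i
      have := congrFun h i
      simp only [dropFirst, flipAt] at this ⊢
      rw [this]
    · intro τ
      obtain ⟨w, h, h', hw⟩ := hEs 1 0 τ
      refine ⟨w, (hE w).2 ⟨h, h'⟩, ?_⟩
      funext i
      exact hw i i.2
    · intro w w' hw hw' h
      refine hBi w w' (hw.1.trans hw'.1.symm) (hw.2.trans hw'.2.symm) fun i hi => ?_
      exact congrFun h ⟨i, hi⟩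
    · rintro w w' ⟨h3, h2, h1⟩ ⟨h3', h2', h1'⟩ h
      refine hF w w' (h3.trans h3'.symm) (h2.trans h2'.symm) (h1.trans h1'.symm) fun i hi => ?_
      exact congrFun h ⟨i, hi⟩
    · rintro w w' ⟨h3, h2, h1⟩ ⟨h3', h2', h1'⟩ h
      refine hF w w' (h3.trans h3'.symm) (h2.trans h2'.symm) (h1.trans h1'.symm) fun i hi => ?_
      exact congrFun h ⟨i, hi⟩
    · rintro w w' ⟨k3, k2, k1⟩ ⟨h3', h2', h1'⟩ h
      have : w = w' := by
        refine hBi w w' (k2.trans h2'.symm) (k1.trans h1'.symm) fun i hi => ?_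
        exact congrFun h ⟨i, hi⟩
      rw [this, h3'] at k3
      exact absurd k3 (by decide)
    · intro w hw
      obtain ⟨r, -, -, h1, h3, hry⟩ := hR0 w hw
      refine ⟨r, ?_, hry⟩
      rcases fin2 (v2 r) with h | h
      · exact Or.inr ⟨h1, h, h3⟩
      · exact Or.inl ⟨h1, h, h3⟩
    · intro η hη
      obtain ⟨r, h1, h2, h3, h4, hry, -, -, h⟩ := hR2 η hη
      refine ⟨r, ?_, hry⟩
      rcases h with h | h
      · exact Or.inr ⟨h3, h.1, h4⟩
      · exact Or.inl ⟨h1, h2, h.2⟩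
    · rintro r ⟨h1, h2, h3⟩
      by_cases h : r = b
      · exact Or.inl h
      right
      have h' : r ≠ a := by
        rintro rfl
        rw [ka2] at h2
        exact absurd h2 (by decide)
      exact (c r h' h).2.2.2.2 h1 h3 h2
    · funext i
      have := i.2
      simp only [dropFirst, flipAt]
      rw [if_neg (by omega)]
    · exact flipAt_ne _ (by omega) _
  have k1 := congrFun half1 ⟨1, by omega⟩
  have k2 := congrFun half2 ⟨0, by omega⟩
  simp only [dropLast, dropFirst, flipAt] at k1 k2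
  rw [if_neg (by omega)] at k1
  simp only [zero_add, if_true] at k2
  rw [k1] at k2
  exact one_sub_ne _ k2.symm

end Pool.Agent.Helper83.SE
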