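import Mathlib

/-!
# Helper file for `MP_c671ed_lc`: a pair of rings `M`, `N`

For a field `k` of characteristic two let `HH k` be the quaternion algebra
`⟨i, j | i² = a + i, j² = c, ji = j - ij⟩` over the polynomial ring `k[a, c, x₀, x₁, ...]`.

* `exists_quotient`: for countable `k`, every nonzero element of `HH k` survives in a quotient
  division ring (a generic quaternion division algebra, whose centre is enumerated by the
  spare variables).
* `kills_j`: for `k` uncountable and perfect, every homomorphism of `HH k` onto a division ring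
  kills `j` (the division ring has countable dimension over `k`, so its centre is algebraic over
  `k`, hence perfect, so `c` becomes a central square).
* `exists_field`: the perfect closure `k` of `F₂(T)` has all the automorphisms induced by
  permutations of `T`.
* `exists_pair`: with `T₀ ⊆ T`, `T₀` countably infinite, `T` uncountable, the rings
  `M = HH (k₀)` and `N = HH k` satisfy the Tarski-Vaught criterion by automorphisms.
* `elemEquiv_of_autos`: the criterion gives elementary equivalence.
-/

universe u v w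

open FirstOrder Language


namespace Pool.Agent.Helper83

/-- A Tarski–Vaught type criterion: if every finite tuple of `M` together with a point of `N` can
be moved by an automorphism of `N` fixing the tuple and moving the point into `M`, then
`M` and `N` are elementarily equivalent. -/
theorem elemEquiv_of_autos {L : FirstOrder.Language.{0, 0}} {M N : Type u}
    [L.Structure M] [L.Structure N] (f : M ↪[L] N)
    (h : ∀ (n : ℕ) (x : Fin n → M) (a : N), ∃ σ : N ≃[L] N,
      (∀ i, σ (f (x i)) = f (x i)) ∧ ∃ b : M, σ a = f b) :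
    L.ElementarilyEquivalent M N := by
  refine (f.toElementaryEmbedding (fun n φ x a ha => ?_)).elementarilyEquivalent
  obtain ⟨σ, hσ, b, hb⟩ := h n x a
  refine ⟨b, ?_⟩
  have h2 := (StrongHomClass.realize_boundedFormula σ φ (v := default)
    (xs := Fin.snoc (f ∘ x) a)).2 ha
  have e1 : (σ ∘ (default : Empty → N)) = default := Subsingleton.elim _ _
  have e2 : (σ ∘ (Fin.snoc (f ∘ x) a : Fin (n + 1) → N)) = Fin.snoc (f ∘ x) (f b) := by
    funext i
    refine Fin.lastCases ?_ (fun j => ?_) i
    · simp [hb]
    · simp [hσ]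
  rw [e1, e2] at h2
  exact h2

/-- Permutations: a finite set `B` can be moved into an infinite set `T0` while fixing a finite
subset `A` of `T0` pointwise. -/
theorem exists_perm {T : Type u} (T0 : Set T) (hT0 : T0.Infinite) (A B : Finset T)
    (hA : (A : Set T) ⊆ T0) :
    ∃ π : Equiv.Perm T, (∀ i ∈ A, π i = i) ∧ ∀ i ∈ B, π i ∈ T0 := by
  classical
  induction B using Finset.induction_on with
  | empty => exact ⟨1, by simp, by simp⟩
  | insert b B hb ih =>
    obtain ⟨π, h1, h2⟩ := ih
    by_cases hbT : π b ∈ T0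
    · refine ⟨π, h1, fun i hi => ?_⟩
      rcases Finset.mem_insert.1 hi with rfl | hi
      · exact hbT
      · exact h2 i hi
    · obtain ⟨c, hcT, hc⟩ := hT0.exists_notMem_finset (A ∪ B.image π)
      simp only [Finset.mem_union, Finset.mem_image, not_or, not_exists, not_and] at hc
      refine ⟨Equiv.swap (π b) c * π, fun i hi => ?_, fun i hi => ?_⟩
      · rw [Equiv.Perm.mul_apply, h1 i hi, Equiv.swap_apply_of_ne_of_ne]
        · rintro rfl
          exact hbT (hA hi)
        · rintro rfl
          exact hc.1 hi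
      · rw [Equiv.Perm.mul_apply]
        rcases Finset.mem_insert.1 hi with rfl | hi
        · simpa using hcT
        · rw [Equiv.swap_apply_of_ne_of_ne]
          · exact h2 i hi
          · intro h
            exact hbT (h ▸ h2 i hi)
          · exact hc.2 i hi

end Pool.Agent.Helper83

namespace Pool.Agent.Helper83

section Fields

variable {k : Type u} [Field k] [CharP k 2] {T : Type v} (t : T → k)

/-- The relative perfect closure of the subfield generated by `t '' A`. -/
def kA (A : Set T) : Subfield k where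
  carrier := {x | ∃ n : ℕ, x ^ (2 ^ n) ∈ Subfield.closure (t '' A)}
  mul_mem' := by
    rintro x y ⟨n, hn⟩ ⟨m, hm⟩
    refine ⟨n + m, ?_⟩
    rw [mul_pow]
    refine mul_mem ?_ ?_
    · rw [pow_add, pow_mul]; exact pow_mem hn _
    · rw [add_comm, pow_add, pow_mul]; exact pow_mem hm _
  one_mem' := ⟨0, by simp [one_mem]⟩
  add_mem' := by
    rintro x y ⟨n, hn⟩ ⟨m, hm⟩
    refine ⟨n + m, ?_⟩
    rw [add_pow_char_pow]
    refine add_mem ?_ ?_
    · rw [pow_add, pow_mul]; exact pow_mem hn _
    · rw [add_comm n m, pow_add, pow_mul]; exact pow_mem hm _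
  zero_mem' := ⟨0, by simp [zero_mem]⟩
  neg_mem' := by
    rintro x ⟨n, hn⟩
    refine ⟨n, ?_⟩
    rw [CharTwo.neg_eq]
    exact hn
  inv_mem' := by
    rintro x ⟨n, hn⟩
    exact ⟨n, by rw [inv_pow]; exact inv_mem hn⟩

theorem mem_kA {A : Set T} {x : k} :
    x ∈ kA t A ↔ ∃ n : ℕ, x ^ (2 ^ n) ∈ Subfield.closure (t '' A) := Iff.rfl

theorem kA_mono {A B : Set T} (h : A ⊆ B) : kA t A ≤ kA t B := by
  rintro x ⟨n, hn⟩
  exact ⟨n, Subfield.closure_mono (Set.image_mono h) hn⟩

/-- Automorphisms fixing the generators fix `kA`. -/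
theorem kA_fixed {A : Set T} (σ : k ≃+* k) (hσ : ∀ i ∈ A, σ (t i) = t i) {x : k}
    (hx : x ∈ kA t A) : σ x = x := by
  obtain ⟨n, hn⟩ := hx
  have h1 : ∀ y ∈ Subfield.closure (t '' A), σ y = y := by
    intro y hy
    induction hy using Subfield.closure_induction with
    | mem x hx => obtain ⟨i, hi, rfl⟩ := hx; exact hσ i hi
    | one => simp
    | add x y _ _ hx hy => rw [map_add, hx, hy]
    | neg x _ hx => rw [map_neg, hx]
    | inv x _ hx => rw [map_inv₀, hx]
    | mul x y _ _ hx hy => rw [map_mul, hx, hy]
  have h2 := h1 _ hn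
  rw [map_pow] at h2
  exact iterateFrobenius_inj k 2 n (by simpa [iterateFrobenius_def] using h2)

theorem kA_map {A B : Set T} (σ : k ≃+* k) (hσ : ∀ i ∈ A, σ (t i) ∈ t '' B) {x : k}
    (hx : x ∈ kA t A) : σ x ∈ kA t B := by
  obtain ⟨n, hn⟩ := hx
  refine ⟨n, ?_⟩
  rw [← map_pow]
  generalize x ^ (2 ^ n) = y at hn
  induction hn using Subfield.closure_induction with
  | mem x hx => obtain ⟨i, hi, rfl⟩ := hx; exact Subfield.subset_closure (hσ i hi)
  | one => rw [map_one]; exact one_mem _
  | add x y _ _ hx hy => rw [map_add]; exact add_mem hx hy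
  | neg x _ hx => rw [map_neg]; exact neg_mem hx
  | inv x _ hx => rw [map_inv₀]; exact inv_mem hx
  | mul x y _ _ hx hy => rw [map_mul]; exact mul_mem hx hy

/-- Finite support. -/
theorem kA_finite {A : Set T} {x : k} (hx : x ∈ kA t A) :
    ∃ F : Finset T, (F : Set T) ⊆ A ∧ x ∈ kA t (F : Set T) := by
  classical
  obtain ⟨n, hn⟩ := hx
  suffices h : ∀ y ∈ Subfield.closure (t '' A),
      ∃ F : Finset T, (F : Set T) ⊆ A ∧ y ∈ Subfield.closure (t '' (F : Set T)) by
    obtain ⟨F, hF, hy⟩ := h _ hn
    exact ⟨F, hF, n, hy⟩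
  intro y hy
  have mono : ∀ {F G : Finset T}, F ⊆ G →
      Subfield.closure (t '' (F : Set T)) ≤ Subfield.closure (t '' (G : Set T)) := by
    intro F G h
    exact Subfield.closure_mono (Set.image_mono (by exact_mod_cast h))
  induction hy using Subfield.closure_induction with
  | mem x hx =>
    obtain ⟨i, hi, rfl⟩ := hx
    exact ⟨{i}, by simpa using hi, Subfield.subset_closure ⟨i, by simp, rfl⟩⟩
  | one => exact ⟨∅, by simp, one_mem _⟩
  | add x y _ _ hx hy =>
    obtain ⟨F, hF, hx⟩ := hx
    obtain ⟨G, hG, hy⟩ := hy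
    refine ⟨F ∪ G, by simp [hF, hG], add_mem (mono Finset.subset_union_left hx)
      (mono Finset.subset_union_right hy)⟩
  | neg x _ hx =>
    obtain ⟨F, hF, hx⟩ := hx
    exact ⟨F, hF, neg_mem hx⟩
  | inv x _ hx =>
    obtain ⟨F, hF, hx⟩ := hx
    exact ⟨F, hF, inv_mem hx⟩
  | mul x y _ _ hx hy =>
    obtain ⟨F, hF, hx⟩ := hx
    obtain ⟨G, hG, hy⟩ := hy
    refine ⟨F ∪ G, by simp [hF, hG], mul_mem (mono Finset.subset_union_left hx)
      (mono Finset.subset_union_right hy)⟩

theorem kA_countable {A : Set T} (hA : A.Countable) : Countable (kA t A) := by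
  have h1 : Countable (Subfield.closure (t '' A)) := by
    rw [← Cardinal.mk_le_aleph0_iff]
    refine (Subfield.cardinalMk_closure_le_max _).trans ?_
    have := (hA.image t).to_subtype
    simp
  let g : kA t A → ℕ × Subfield.closure (t '' A) := fun x =>
    (Classical.choose x.2, ⟨_, Classical.choose_spec x.2⟩)
  have hg : Function.Injective g := by
    intro x y hxy
    have e1 : Classical.choose x.2 = Classical.choose y.2 := congrArg Prod.fst hxy
    have e2 : x.1 ^ (2 ^ Classical.choose x.2) = y.1 ^ (2 ^ Classical.choose y.2) := by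
      have := congrArg (fun z => (z.2 : k)) hxy
      exact this
    rw [← e1] at e2
    exact Subtype.ext (iterateFrobenius_inj k 2 _ (by simpa [iterateFrobenius_def] using e2))
  exact hg.countable

theorem kA_sq {A : Set T} [PerfectRing k 2] (x : kA t A) : ∃ y : kA t A, y ^ 2 = x := by
  obtain ⟨y, hy⟩ := (PerfectRing.bijective_frobenius (R := k) (p := 2)).2 x.1
  obtain ⟨n, hn⟩ := x.2
  refine ⟨⟨y, n + 1, ?_⟩, Subtype.ext (by simpa [frobenius_def] using hy)⟩
  rw [pow_succ', pow_mul]
  have hy' : y ^ 2 = x.1 := hy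
  rw [hy']
  exact hn

end Fields

end Pool.Agent.Helper83

namespace Pool.Agent.Helper83

open MvPolynomial Quaternion

/-- Functoriality of quaternion algebras. -/
def qmap {R : Type u} {S : Type v} [CommRing R] [CommRing S] (φ : R →+* S) {a b c : R}
    {a' b' c' : S} (ha : φ a = a') (hb : φ b = b') (hc : φ c = c') :
    QuaternionAlgebra R a b c →+* QuaternionAlgebra S a' b' c' where
  toFun q := ⟨φ q.re, φ q.imI, φ q.imJ, φ q.imK⟩
  map_one' := by ext <;> simp
  map_zero' := by ext <;> simp
  map_add' x y := by ext <;> simp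
  map_mul' x y := by ext <;> simp [ha, hb, hc]

theorem qmap_injective {R : Type u} {S : Type v} [CommRing R] [CommRing S] (φ : R →+* S)
    {a b c : R} {a' b' c' : S} (ha : φ a = a') (hb : φ b = b') (hc : φ c = c')
    (h : Function.Injective φ) : Function.Injective (qmap φ ha hb hc) := by
  intro x y hxy
  have h1 := congrArg QuaternionAlgebra.re hxy
  have h2 := congrArg QuaternionAlgebra.imI hxy
  have h3 := congrArg QuaternionAlgebra.imJ hxy
  have h4 := congrArg QuaternionAlgebra.imK hxy
  exact QuaternionAlgebra.ext (h h1) (h h2) (h h3) (h h4)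

theorem qmap_surjective {R : Type u} {S : Type v} [CommRing R] [CommRing S] (φ : R →+* S)
    {a b c : R} {a' b' c' : S} (ha : φ a = a') (hb : φ b = b') (hc : φ c = c')
    (h : Function.Surjective φ) : Function.Surjective (qmap φ ha hb hc) := by
  rintro ⟨x, y, z, w⟩
  obtain ⟨x, rfl⟩ := h x
  obtain ⟨y, rfl⟩ := h y
  obtain ⟨z, rfl⟩ := h z
  obtain ⟨w, rfl⟩ := h w
  exact ⟨⟨x, y, z, w⟩, rfl⟩

/-- the norm form `x² + xy + a y² + c (z² + zw + a w²)` (in characteristic two). -/
def Aniso (R : Type u) [CommRing R] (a c : R) : Prop :=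
  ∀ x y z w : R, (x ^ 2 + x * y + a * y ^ 2) + c * (z ^ 2 + z * w + a * w ^ 2) = 0 →
    x = 0 ∧ y = 0 ∧ z = 0 ∧ w = 0

def Aniso1 (R : Type u) [CommRing R] (a : R) : Prop :=
  ∀ x y : R, x ^ 2 + x * y + a * y ^ 2 = 0 → x = 0 ∧ y = 0

open Polynomial in
theorem aniso1_poly (B : Type u) [CommRing B] [IsDomain B] : Aniso1 (Polynomial B) Polynomial.X := by
  intro x y h
  by_contra hne
  have hy : y ≠ 0 := by
    rintro rfl
    apply hne
    simpa using h
  have hx : x ≠ 0 := by
    rintro rfl
    apply hne
    simpa using h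
  -- degree comparison
  have d1 : (x ^ 2).natDegree = 2 * x.natDegree := by rw [natDegree_pow]
  have d2 : (x * y).natDegree = x.natDegree + y.natDegree := natDegree_mul hx hy
  have d3 : (Polynomial.X * y ^ 2).natDegree = 1 + 2 * y.natDegree := by
    rw [natDegree_mul X_ne_zero (pow_ne_zero _ hy), natDegree_X, natDegree_pow]
  by_cases hlt : x.natDegree ≤ y.natDegree
  · have e : Polynomial.X * y ^ 2 = -(x ^ 2 + x * y) := by linear_combination h
    have d4 : (Polynomial.X * y ^ 2).natDegree ≤ 2 * y.natDegree := by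
      rw [e, natDegree_neg]
      refine (natDegree_add_le _ _).trans (max_le ?_ ?_) <;> omega
    omega
  · have e : x ^ 2 = -(x * y + Polynomial.X * y ^ 2) := by linear_combination h
    have d4 : (x ^ 2).natDegree < 2 * x.natDegree := by
      rw [e, natDegree_neg]
      refine (natDegree_add_le _ _).trans_lt (max_lt ?_ ?_) <;> omega
    omega

open Polynomial in
theorem aniso_poly (E : Type u) [CommRing E] [IsDomain E] (a : E) (ha : Aniso1 E a) :
    Aniso (Polynomial E) (Polynomial.C a) Polynomial.X := by
  -- the binary form has even degree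
  have key : ∀ x y : Polynomial E, ¬ (x = 0 ∧ y = 0) →
      x ^ 2 + x * y + Polynomial.C a * y ^ 2 ≠ 0 ∧
      (x ^ 2 + x * y + Polynomial.C a * y ^ 2).natDegree = 2 * max x.natDegree y.natDegree := by
    intro x y hxy
    set M := max x.natDegree y.natDegree with hM
    have hxM : x.natDegree ≤ M := le_max_left _ _
    have hyM : y.natDegree ≤ M := le_max_right _ _
    have hc : (x ^ 2 + x * y + Polynomial.C a * y ^ 2).coeff (M + M) =
        x.coeff M ^ 2 + x.coeff M * y.coeff M + a * y.coeff M ^ 2 := by
      rw [Polynomial.coeff_add, Polynomial.coeff_add, Polynomial.coeff_C_mul, pow_two, pow_two, pow_two, pow_two,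
        coeff_mul_add_eq_of_natDegree_le hxM hxM, coeff_mul_add_eq_of_natDegree_le hxM hyM,
        coeff_mul_add_eq_of_natDegree_le hyM hyM]
    have hne : (x ^ 2 + x * y + Polynomial.C a * y ^ 2).coeff (M + M) ≠ 0 := by
      rw [hc]
      intro h0
      obtain ⟨h1, h2⟩ := ha _ _ h0
      rcases le_total x.natDegree y.natDegree with hle | hle
      · have : M = y.natDegree := by omega
        rw [this] at h2
        have hy : y = 0 := leadingCoeff_eq_zero.1 h2
        have hx0 : x.natDegree = 0 := by rw [hy] at hle; simpa using hle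
        have hM0 : M = 0 := by rw [this, hy]; simp
        rw [hM0] at h1
        have hx : x = 0 := leadingCoeff_eq_zero.1 (by rw [leadingCoeff, hx0]; exact h1)
        exact hxy ⟨hx, hy⟩
      · have : M = x.natDegree := by omega
        rw [this] at h1
        have hx : x = 0 := leadingCoeff_eq_zero.1 h1
        have hy0 : y.natDegree = 0 := by rw [hx] at hle; simpa using hle
        have hM0 : M = 0 := by rw [this, hx]; simp
        rw [hM0] at h2
        have hy : y = 0 := leadingCoeff_eq_zero.1 (by rw [leadingCoeff, hy0]; exact h2)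
        exact hxy ⟨hx, hy⟩
    refine ⟨fun h => hne (by rw [h]; simp), le_antisymm ?_ ?_⟩
    · refine (natDegree_add_le _ _).trans (max_le ((natDegree_add_le _ _).trans (max_le ?_ ?_)) ?_)
      · rw [natDegree_pow]; omega
      · exact natDegree_mul_le.trans (by omega)
      · refine (natDegree_C_mul_le _ _).trans ?_
        rw [natDegree_pow]; omega
    · rw [two_mul]
      exact le_natDegree_of_ne_zero hne
  intro x y z w h
  by_cases hxy : x = 0 ∧ y = 0
  · by_cases hzw : z = 0 ∧ w = 0
    · exact ⟨hxy.1, hxy.2, hzw.1, hzw.2⟩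
    · exfalso
      obtain ⟨h1, -⟩ := key z w hzw
      rw [hxy.1, hxy.2] at h
      apply h1
      have : (Polynomial.X : Polynomial E) * (z ^ 2 + z * w + Polynomial.C a * w ^ 2) = 0 := by
        linear_combination h
      exact (mul_eq_zero.1 this).resolve_left X_ne_zero
  · exfalso
    obtain ⟨h1, h2⟩ := key x y hxy
    by_cases hzw : z = 0 ∧ w = 0
    · apply h1
      rw [hzw.1, hzw.2] at h
      linear_combination h
    · obtain ⟨h3, h4⟩ := key z w hzw
      have e : x ^ 2 + x * y + Polynomial.C a * y ^ 2 =
          -(Polynomial.X * (z ^ 2 + z * w + Polynomial.C a * w ^ 2)) := by linear_combination h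
      have d := congrArg natDegree e
      rw [natDegree_neg, natDegree_mul X_ne_zero h3, natDegree_X, h2, h4] at d
      omega

end Pool.Agent.Helper83

namespace Pool.Agent.Helper83

open MvPolynomial Quaternion

/-- anisotropy passes to the fraction field -/
theorem Aniso.fraction {A : Type u} [CommRing A] [IsDomain A] {a c : A} (h : Aniso A a c)
    (K : Type v) [Field K] [Algebra A K] [IsFractionRing A K] :
    Aniso K (algebraMap A K a) (algebraMap A K c) := by
  intro x y z w hxyzw
  obtain ⟨d, hd⟩ := IsLocalization.exist_integer_multiples_of_finite (nonZeroDivisors A)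
    (![x, y, z, w] : Fin 4 → K)
  obtain ⟨x', hx'⟩ := hd 0
  obtain ⟨y', hy'⟩ := hd 1
  obtain ⟨z', hz'⟩ := hd 2
  obtain ⟨w', hw'⟩ := hd 3
  simp only [Algebra.smul_def, Matrix.cons_val_zero, Matrix.cons_val_one, Matrix.cons_val] at hx' hy' hz' hw'
  have hd0 : algebraMap A K d ≠ 0 := by
    simp
  have hinj := IsFractionRing.injective A K
  have h1 := h x' y' z' w' (by
    apply hinj
    simp only [map_add, map_mul, map_pow, map_zero, hx', hy', hz', hw']
    linear_combination (algebraMap A K d) ^ 2 * hxyzw)
  obtain ⟨rfl, rfl, rfl, rfl⟩ := h1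
  simp only [map_zero] at hx' hy' hz' hw'
  refine ⟨?_, ?_, ?_, ?_⟩
  · exact (mul_eq_zero.1 hx'.symm).resolve_left hd0
  · exact (mul_eq_zero.1 hy'.symm).resolve_left hd0
  · exact (mul_eq_zero.1 hz'.symm).resolve_left hd0
  · exact (mul_eq_zero.1 hw'.symm).resolve_left hd0

theorem Aniso.of_equiv {A : Type u} {B : Type v} [CommRing A] [CommRing B] (e : A ≃+* B)
    {a c : A} {a' c' : B} (ha : e a = a') (hc : e c = c') (h : Aniso B a' c') : Aniso A a c := by
  intro x y z w hxyzw
  have := h (e x) (e y) (e z) (e w) (by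
    have := congrArg e hxyzw
    simpa [ha, hc] using this)
  simpa using this

theorem aniso_mvPoly (k : Type u) [Field k] :
    Aniso (MvPolynomial (Option (Option ℕ)) k) (X (some none)) (X none) := by
  have h1 := aniso1_poly (MvPolynomial ℕ k)
  have h2 := aniso_poly _ _ h1
  refine Aniso.of_equiv ((optionEquivLeft k (Option ℕ)).toRingEquiv.trans
    (Polynomial.mapEquiv (optionEquivLeft k ℕ).toRingEquiv)) ?_ ?_ h2
  · simp
  · simp

end Pool.Agent.Helper83

namespace Pool.Agent.Helper83

open MvPolynomial Quaternion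

theorem isUnit_or_eq_zero {K : Type u} [Field K] [CharP K 2] {a c : K} (h : Aniso K a c)
    (q : QuaternionAlgebra K a 1 c) : IsUnit q ∨ q = 0 := by
  by_cases hq : q = 0
  · exact Or.inr hq
  left
  set N : K := (q.re ^ 2 + q.re * q.imI + a * q.imI ^ 2) +
    c * (q.imJ ^ 2 + q.imJ * q.imK + a * q.imK ^ 2) with hN
  have hN0 : N ≠ 0 := by
    intro h0
    obtain ⟨h1, h2, h3, h4⟩ := h _ _ _ _ h0
    exact hq (QuaternionAlgebra.ext h1 h2 h3 h4)
  have h2 : (2 : K) = 0 := CharTwo.two_eq_zero
  clear_value N
  have e1 : star q * q = (N : QuaternionAlgebra K a 1 c) := by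
    ext <;> simp
    · rw [hN]
      linear_combination (-(a * q.imI ^ 2) - c * q.imJ ^ 2 - c * q.imJ * q.imK) * h2
    · ring
    · ring
    · ring
  have e2 : q * star q = (N : QuaternionAlgebra K a 1 c) := by
    ext <;> simp
    · rw [hN]
      linear_combination (-(a * q.imI ^ 2) - c * q.imJ ^ 2 - c * q.imJ * q.imK) * h2
    · ring
    · ring
    · ring
  refine ⟨⟨q, (N⁻¹ : K) • star q, ?_, ?_⟩, rfl⟩
  · rw [mul_smul_comm, e2, ← QuaternionAlgebra.coe_mul_eq_smul, ← QuaternionAlgebra.coe_mul,
      inv_mul_cancel₀ hN0, QuaternionAlgebra.coe_one]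
  · rw [smul_mul_assoc, e1, ← QuaternionAlgebra.coe_mul_eq_smul, ← QuaternionAlgebra.coe_mul,
      inv_mul_cancel₀ hN0, QuaternionAlgebra.coe_one]

end Pool.Agent.Helper83

namespace Pool.Agent.Helper83

open MvPolynomial Quaternion

/-- The quaternion algebra `⟨i, j | i² = a + i, j² = c, ji = j - ij⟩` over
`k[a, c, x₀, x₁, ...]`. -/
abbrev HH (k : Type u) [CommRing k] : Type u :=
  QuaternionAlgebra (MvPolynomial (Option (Option ℕ)) k) (X (some none)) 1 (X none)

theorem exists_quotient (k : Type u) [Field k] [CharP k 2] [Countable k] (r : HH k) (hr : r ≠ 0) :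
    ∃ (D : Type u) (_ : DivisionRing D) (f : HH k →+* D), Function.Surjective f ∧ f r ≠ 0 := by
  classical
  let A := MvPolynomial (Option (Option ℕ)) k
  let K := FractionRing A
  have hAn : Aniso K (algebraMap A K (X (some none))) (algebraMap A K (X none)) :=
    Aniso.fraction (aniso_mvPoly k) K
  have hKc : Countable K := by
    rw [← Cardinal.mk_le_aleph0_iff]
    refine (IsLocalization.cardinalMk_le (R := A) (L := K) (nonZeroDivisors A)).trans ?_
    have : Countable A := by
      rw [← Cardinal.mk_le_aleph0_iff]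
      refine (MvPolynomial.cardinalMk_le_max_lift (σ := Option (Option ℕ)) (R := k)).trans ?_
      simp
    simp
  obtain ⟨e, he⟩ := exists_surjective_nat K
  -- a bound for the variables occurring in `r`
  let V : Finset (Option (Option ℕ)) := r.re.vars ∪ r.imI.vars ∪ r.imJ.vars ∪ r.imK.vars
  obtain ⟨n, hn⟩ : ∃ n : ℕ, ∀ m, n ≤ m → some (some m) ∉ V := by
    have hinj : Function.Injective (fun m : ℕ => (some (some m) : Option (Option ℕ))) := by
      intro a b h
      simpa using h
    obtain ⟨n, hn⟩ := (V.preimage _ hinj.injOn).exists_nat_subset_range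
    refine ⟨n, fun m hm hmV => ?_⟩
    have := hn (Finset.mem_preimage.2 hmV)
    rw [Finset.mem_range] at this
    omega
  let g : Option (Option ℕ) → K := fun o => match o with
    | some (some m) => if m < n then algebraMap A K (X (some (some m))) else e (m - n)
    | some none => algebraMap A K (X (some none))
    | none => algebraMap A K (X none)
  let φ : A →+* K := (MvPolynomial.aeval g : A →ₐ[k] K).toRingHom
  have hφX : ∀ o, φ (X o) = g o := fun o => MvPolynomial.aeval_X g o
  have hφsurj : Function.Surjective φ := by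
    intro y
    obtain ⟨m, rfl⟩ := he y
    refine ⟨X (some (some (n + m))), ?_⟩
    rw [hφX]
    simp [g]
  have hφV : ∀ p : A, p.vars ⊆ V → φ p = algebraMap A K p := by
    intro p hp
    refine hom_congr_vars (f₁ := φ) (f₂ := algebraMap A K) ?_ ?_ rfl
    · ext y
      change MvPolynomial.aeval g (C y) = algebraMap A K (C y)
      rw [MvPolynomial.aeval_C]
      rfl
    · intro i hi _
      rw [hφX]
      rcases i with _ | _ | m
      · rfl
      · rfl
      · have hm : m < n := by
          by_contra h
          exact hn m (not_lt.1 h) (hp hi)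
        simp [g, hm]
  let D := QuaternionAlgebra K (algebraMap A K (X (some none))) 1 (algebraMap A K (X none))
  let hD : DivisionRing D := DivisionRing.ofIsUnitOrEqZero (fun q => isUnit_or_eq_zero hAn q)
  let f : HH k →+* D := qmap φ (hφX _) (map_one φ) (hφX _)
  refine ⟨D, hD, f, qmap_surjective φ _ _ _ hφsurj, ?_⟩
  intro h0
  apply hr
  have hinj := IsFractionRing.injective A K
  have h1 := congrArg QuaternionAlgebra.re h0
  have h2 := congrArg QuaternionAlgebra.imI h0
  have h3 := congrArg QuaternionAlgebra.imJ h0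
  have h4 := congrArg QuaternionAlgebra.imK h0
  have s1 : r.re.vars ⊆ V := fun x hx => by simp [V, hx]
  have s2 : r.imI.vars ⊆ V := fun x hx => by simp [V, hx]
  have s3 : r.imJ.vars ⊆ V := fun x hx => by simp [V, hx]
  have s4 : r.imK.vars ⊆ V := fun x hx => by simp [V, hx]
  change φ r.re = 0 at h1
  change φ r.imI = 0 at h2
  change φ r.imJ = 0 at h3
  change φ r.imK = 0 at h4
  rw [hφV _ s1] at h1
  rw [hφV _ s2] at h2
  rw [hφV _ s3] at h3
  rw [hφV _ s4] at h4
  exact QuaternionAlgebra.ext (hinj (by rw [h1]; simp)) (hinj (by rw [h2]; simp))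
    (hinj (by rw [h3]; simp)) (hinj (by rw [h4]; simp))

end Pool.Agent.Helper83

namespace Pool.Agent.Helper83

open MvPolynomial Quaternion

theorem kills_j (k : Type u) [Field k] [CharP k 2] [PerfectRing k 2] [Uncountable k]
    (D : Type u) [DivisionRing D] (f : HH k →+* D) (hf : Function.Surjective f) :
    f ⟨0, 0, 1, 0⟩ = 0 := by
  classical
  let P := MvPolynomial (Option (Option ℕ)) k
  -- the structural map `k → D` is central
  let g : k →+* D := f.comp (algebraMap k (HH k))
  have hg : ∀ (c : k) (x : D), g c * x = x * g c := by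
    intro c x
    obtain ⟨y, rfl⟩ := hf x
    change f _ * f _ = f _ * f _
    rw [← map_mul, ← map_mul, Algebra.commutes]
  let _ : Algebra k D := g.toAlgebra' hg
  have hgalg : ∀ c : k, algebraMap k D c = g c := fun c => rfl
  -- countable dimension
  have hrank : Module.rank k D ≤ Cardinal.aleph0 := by
    let L : (Fin 4 → P) →ₗ[k] D :=
      { toFun := fun v => f ⟨v 0, v 1, v 2, v 3⟩
        map_add' := fun v w => by rw [← map_add]; rfl
        map_smul' := fun c v => by
          rw [RingHom.id_apply, Algebra.smul_def (A := D), hgalg]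
          change _ = f _ * f _
          rw [← map_mul, ← Algebra.smul_def]
          rfl }
    have hL : Function.Surjective L := by
      intro x
      obtain ⟨y, rfl⟩ := hf x
      exact ⟨![y.re, y.imI, y.imJ, y.imK], rfl⟩
    refine (LinearMap.rank_le_of_surjective L hL).trans ?_
    have : Module.rank k P = Cardinal.aleph0 := by
      rw [MvPolynomial.rank_eq_lift, Cardinal.mk_finsupp_nat]
      simp
    simp [this]
  -- the center
  let Z := Subring.center D
  let gZ : k →+* Z := g.codRestrict Z (fun c => Subring.mem_center_iff.2 fun x => (hg c x).symm)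
  let _ : Algebra k Z := gZ.toAlgebra
  have hZalg : Algebra.IsAlgebraic k Z := by
    constructor
    intro x
    by_contra hx
    have hli := (show Transcendental k x from hx).linearIndependent_sub_inv
    let ι : Z →ₗ[k] D :=
      { toFun := fun z => z.1
        map_add' := fun _ _ => rfl
        map_smul' := fun c z => by
          rw [RingHom.id_apply, Algebra.smul_def, Algebra.smul_def]
          rfl }
    have hι : LinearMap.ker ι = ⊥ := LinearMap.ker_eq_bot.2 Subtype.val_injective
    have h1 := (hli.map' ι hι).cardinal_le_rank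
    have h2 := h1.trans hrank
    rw [Cardinal.mk_le_aleph0_iff] at h2
    exact not_countable h2
  have hperf : PerfectField k := PerfectRing.toPerfectField k 2
  have hZp : PerfectField Z := Algebra.IsAlgebraic.perfectField k
  have : CharP Z 2 := charP_of_injective_algebraMap (algebraMap k Z).injective 2
  have : ExpChar Z 2 := inferInstance
  have hZr : PerfectRing Z 2 := inferInstance
  -- the image of `X none` is a central square
  have hcen : f (algebraMap P (HH k) (X none)) ∈ Z := by
    refine Subring.mem_center_iff.2 fun x => ?_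
    obtain ⟨y, rfl⟩ := hf x
    rw [← map_mul, ← map_mul, Algebra.commutes]
  obtain ⟨γ, hγ⟩ := (PerfectRing.bijective_frobenius (R := Z) (p := 2)).2 ⟨_, hcen⟩
  have hγ' : γ.1 ^ 2 = f (algebraMap P (HH k) (X none)) := congrArg Subtype.val hγ
  have hj2 : (⟨0, 0, 1, 0⟩ : HH k) ^ 2 = algebraMap P (HH k) (X none) := by
    rw [pow_two, QuaternionAlgebra.algebraMap_eq]
    ext <;> simp
  have hjγ : (f ⟨0, 0, 1, 0⟩ - γ.1) * (f ⟨0, 0, 1, 0⟩ + γ.1) = 0 := by
    have hc := Subring.mem_center_iff.1 γ.2 (f ⟨0, 0, 1, 0⟩)
    have : (f ⟨0, 0, 1, 0⟩ - γ.1) * (f ⟨0, 0, 1, 0⟩ + γ.1) =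
        f ⟨0, 0, 1, 0⟩ ^ 2 - γ.1 ^ 2 := by
      rw [sub_mul, mul_add, mul_add, hc, pow_two, pow_two]
      abel
    rw [this, ← map_pow, hj2, hγ', sub_self]
  have hjc : f ⟨0, 0, 1, 0⟩ ∈ Z := by
    rcases mul_eq_zero.1 hjγ with h | h
    · rw [sub_eq_zero.1 h]; exact γ.2
    · rw [eq_neg_of_add_eq_zero_left h]; exact neg_mem γ.2
  -- `ij + ji = j`
  have hrel : (⟨0, 1, 0, 0⟩ : HH k) * ⟨0, 0, 1, 0⟩ + ⟨0, 0, 1, 0⟩ * ⟨0, 1, 0, 0⟩ =
      ⟨0, 0, 1, 0⟩ := by
    ext <;> simp
  have h3 := congrArg f hrel
  rw [map_add, map_mul, map_mul, Subring.mem_center_iff.1 hjc, ← two_mul] at h3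
  have h2D : (2 : D) = 0 := by
    have : (2 : D) = g 2 := (map_ofNat g 2).symm
    rw [this, CharTwo.two_eq_zero, map_zero]
  rw [h2D, zero_mul] at h3
  exact h3.symm

end Pool.Agent.Helper83

namespace Pool.Agent.Helper83

/-- Automorphisms of `K` lift to its perfect closure. -/
theorem lift_aut (K : Type u) [Field K] [CharP K 2] (τ : K ≃+* K) :
    ∃ σ : PerfectClosure K 2 ≃+* PerfectClosure K 2, ∀ x, σ (PerfectClosure.of K 2 x) =
      PerfectClosure.of K 2 (τ x) := by
  let k := PerfectClosure K 2
  let L : (K →+* K) → (k →+* k) := fun f => PerfectClosure.lift K 2 k ((PerfectClosure.of K 2).comp f)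
  have hL : ∀ f : K →+* K, (L f).comp (PerfectClosure.of K 2) = (PerfectClosure.of K 2).comp f := by
    intro f
    exact (PerfectClosure.lift K 2 k).symm_apply_apply _
  have hcomp : ∀ f g : K →+* K, (L f).comp (L g) = L (f.comp g) := by
    intro f g
    apply (PerfectClosure.lift K 2 k).symm.injective
    change ((L f).comp (L g)).comp (PerfectClosure.of K 2) = (L (f.comp g)).comp (PerfectClosure.of K 2)
    rw [RingHom.comp_assoc, hL g, ← RingHom.comp_assoc, hL f, hL, RingHom.comp_assoc]
  have hid : L (RingHom.id K) = RingHom.id k := by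
    apply (PerfectClosure.lift K 2 k).symm.injective
    change (L (RingHom.id K)).comp (PerfectClosure.of K 2) = (RingHom.id k).comp (PerfectClosure.of K 2)
    rw [hL]
    rfl
  refine ⟨RingEquiv.ofRingHom (L τ.toRingHom) (L τ.symm.toRingHom) ?_ ?_, ?_⟩
  · rw [hcomp, ← hid]
    congr 1
    ext x
    simp
  · rw [hcomp, ← hid]
    congr 1
    ext x
    simp
  · intro x
    exact RingHom.congr_fun (hL τ.toRingHom) x

/-- The concrete field: perfect closure of `F₂(T)`. -/
theorem exists_field (T : Type u) : ∃ (k : Type u) (_ : Field k) (_ : CharP k 2)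
    (_ : PerfectRing k 2) (t : T → k), Function.Injective t ∧
    (∀ π : Equiv.Perm T, ∃ σ : k ≃+* k, ∀ i, σ (t i) = t (π i)) ∧
    (∀ x : k, x ∈ kA t Set.univ) := by
  let A := MvPolynomial T (ZMod 2)
  let K := FractionRing A
  have : CharP K 2 := charP_of_injective_algebraMap (IsFractionRing.injective A K) 2
  let k := PerfectClosure K 2
  let t : T → k := fun i => PerfectClosure.of K 2 (algebraMap A K (MvPolynomial.X i))
  refine ⟨k, inferInstance, inferInstance, inferInstance, t, ?_, ?_, ?_⟩
  · intro i j hij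
    have h1 := (PerfectClosure.of K 2).injective hij
    have h2 := IsFractionRing.injective A K h1
    exact MvPolynomial.X_injective h2
  · intro π
    let e : A ≃+* A := (MvPolynomial.renameEquiv (ZMod 2) π).toRingEquiv
    let τ : K ≃+* K := IsFractionRing.ringEquivOfRingEquiv e
    obtain ⟨σ, hσ⟩ := lift_aut K τ
    refine ⟨σ, fun i => ?_⟩
    change σ (PerfectClosure.of K 2 _) = PerfectClosure.of K 2 _
    rw [hσ]
    congr 1
    change IsFractionRing.ringEquivOfRingEquiv e (algebraMap A K (MvPolynomial.X i)) = _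
    rw [IsFractionRing.ringEquivOfRingEquiv_algebraMap]
    exact congrArg _ (MvPolynomial.rename_X π i)
  · intro x
    obtain ⟨⟨n, y⟩, rfl⟩ := PerfectClosure.mk_surjective K 2 x
    refine ⟨n, ?_⟩
    have h1 : (PerfectClosure.mk K 2 (n, y)) ^ (2 ^ n) = PerfectClosure.of K 2 y := by
      have := PerfectClosure.iterate_frobenius_mk K 2 n y
      rwa [iterate_frobenius] at this
    rw [h1]
    obtain ⟨a, b, hb, rfl⟩ := IsFractionRing.div_surjective (A := A) y
    rw [map_div₀]
    have key : ∀ p : A, PerfectClosure.of K 2 (algebraMap A K p) ∈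
        Subfield.closure (t '' Set.univ) := by
      intro p
      induction p using MvPolynomial.induction_on with
      | C c =>
        have : ∀ z : ZMod 2, PerfectClosure.of K 2 (algebraMap A K (MvPolynomial.C z)) ∈
          Subfield.closure (t '' Set.univ) := by
          intro z
          have hz : z = 0 ∨ z = 1 := by
            fin_cases z
            · left; rfl
            · right; rfl
          rcases hz with rfl | rfl
          · simp [zero_mem]
          · simp [one_mem]
        exact this c
      | add p q hp hq => rw [map_add, map_add]; exact add_mem hp hq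
      | mul_X p i hp =>
        rw [map_mul, map_mul]
        exact mul_mem hp (Subfield.subset_closure ⟨i, trivial, rfl⟩)
    exact div_mem (key a) (key b)

end Pool.Agent.Helper83

namespace Pool.Agent.Helper83

open MvPolynomial

/-- coefficients of the four components -/
def hcoeffs {k : Type u} [CommRing k] [DecidableEq k] (q : HH k) : Finset k :=
  q.re.support.image (fun m => q.re.coeff m) ∪ q.imI.support.image (fun m => q.imI.coeff m) ∪
    q.imJ.support.image (fun m => q.imJ.coeff m) ∪ q.imK.support.image (fun m => q.imK.coeff m)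

/-- base change `HH k → HH k'` -/
noncomputable def hmap {k k' : Type u} [CommRing k] [CommRing k'] (φ : k →+* k') : HH k →+* HH k' :=
  qmap (MvPolynomial.map φ) (by simp) (by simp) (by simp)

theorem hmap_injective {k k' : Type u} [CommRing k] [CommRing k'] (φ : k →+* k')
    (h : Function.Injective φ) : Function.Injective (hmap φ) :=
  qmap_injective _ _ _ _ (MvPolynomial.map_injective φ h)

theorem hmap_comp {k k' k'' : Type u} [CommRing k] [CommRing k'] [CommRing k''] (φ : k →+* k')
    (ψ : k' →+* k'') (q : HH k) : hmap ψ (hmap φ q) = hmap (ψ.comp φ) q := by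
  ext1 <;> exact MvPolynomial.map_map _ _ _

theorem hmap_id {k : Type u} [CommRing k] (q : HH k) : hmap (RingHom.id k) q = q := by
  ext1 <;> exact MvPolynomial.map_id _

/-- automorphisms of `k` act on `HH k` -/
noncomputable def haut {k : Type u} [CommRing k] (σ : k ≃+* k) : HH k ≃+* HH k :=
  RingEquiv.ofRingHom (hmap σ.toRingHom) (hmap σ.symm.toRingHom)
    (by
      ext1 q
      rw [RingHom.comp_apply, hmap_comp]
      have : (σ.toRingHom).comp σ.symm.toRingHom = RingHom.id k := by ext x; simp
      rw [this, hmap_id]; rfl)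
    (by
      ext1 q
      rw [RingHom.comp_apply, hmap_comp]
      have : (σ.symm.toRingHom).comp σ.toRingHom = RingHom.id k := by ext x; simp
      rw [this, hmap_id]; rfl)

theorem haut_apply {k : Type u} [CommRing k] (σ : k ≃+* k) (q : HH k) :
    haut σ q = hmap σ.toRingHom q := rfl

theorem haut_fixed {k : Type u} [CommRing k] [DecidableEq k] (σ : k ≃+* k) (q : HH k)
    (h : ∀ c ∈ hcoeffs q, σ c = c) : haut σ q = q := by
  have key : ∀ p : MvPolynomial (Option (Option ℕ)) k, (∀ m, σ (p.coeff m) = p.coeff m) →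
      MvPolynomial.map σ.toRingHom p = p := by
    intro p hp
    ext m
    rw [MvPolynomial.coeff_map]
    exact hp m
  have key2 : ∀ p : MvPolynomial (Option (Option ℕ)) k,
      (∀ c ∈ p.support.image (fun m => p.coeff m), σ c = c) → MvPolynomial.map σ.toRingHom p = p := by
    intro p hp
    refine key p fun m => ?_
    by_cases hm : m ∈ p.support
    · exact hp _ (Finset.mem_image_of_mem _ hm)
    · rw [MvPolynomial.notMem_support_iff.1 hm, map_zero]
  rw [haut_apply]
  refine QuaternionAlgebra.ext ?_ ?_ ?_ ?_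
  · exact key2 _ fun c hc => h c (by simp only [hcoeffs, Finset.mem_union]; tauto)
  · exact key2 _ fun c hc => h c (by simp only [hcoeffs, Finset.mem_union]; tauto)
  · exact key2 _ fun c hc => h c (by simp only [hcoeffs, Finset.mem_union]; tauto)
  · exact key2 _ fun c hc => h c (by simp only [hcoeffs, Finset.mem_union]; tauto)

theorem haut_mem_range {k : Type u} [Field k] [DecidableEq k] (k0 : Subfield k) (σ : k ≃+* k)
    (q : HH k) (h : ∀ c ∈ hcoeffs q, σ c ∈ k0) : ∃ b : HH k0, haut σ q = hmap k0.subtype b := by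
  have key2 : ∀ p : MvPolynomial (Option (Option ℕ)) k,
      (∀ c ∈ p.support.image (fun m => p.coeff m), σ c ∈ k0) →
      ∃ b : MvPolynomial (Option (Option ℕ)) k0, MvPolynomial.map σ.toRingHom p =
        MvPolynomial.map k0.subtype b := by
    intro p hp
    have : MvPolynomial.map σ.toRingHom p ∈
        Set.range (MvPolynomial.map (σ := Option (Option ℕ)) k0.subtype) := by
      rw [MvPolynomial.mem_range_map_iff_coeffs_subset]
      intro c hc
      simp only [MvPolynomial.coeffs, Finset.coe_image, Set.mem_image, Finset.mem_coe] at hc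
      obtain ⟨m, hm, rfl⟩ := hc
      rw [MvPolynomial.coeff_map]
      have hm' : m ∈ p.support := MvPolynomial.support_map_subset _ _ hm
      exact ⟨⟨_, hp _ (Finset.mem_image_of_mem _ hm')⟩, rfl⟩
    obtain ⟨b, hb⟩ := this
    exact ⟨b, hb.symm⟩
  obtain ⟨b1, h1⟩ := key2 q.re fun c hc => h c (by simp only [hcoeffs, Finset.mem_union]; tauto)
  obtain ⟨b2, h2⟩ := key2 q.imI fun c hc => h c (by simp only [hcoeffs, Finset.mem_union]; tauto)
  obtain ⟨b3, h3⟩ := key2 q.imJ fun c hc => h c (by simp only [hcoeffs, Finset.mem_union]; tauto)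
  obtain ⟨b4, h4⟩ := key2 q.imK fun c hc => h c (by simp only [hcoeffs, Finset.mem_union]; tauto)
  exact ⟨⟨b1, b2, b3, b4⟩, QuaternionAlgebra.ext h1 h2 h3 h4⟩

/-- Finite support of a finite set of scalars. -/
theorem kA_finset {k : Type u} [Field k] [CharP k 2] {T : Type v} (t : T → k) (A : Set T)
    (C : Finset k) (hC : ∀ c ∈ C, c ∈ kA t A) :
    ∃ F : Finset T, (F : Set T) ⊆ A ∧ ∀ c ∈ C, c ∈ kA t (F : Set T) := by
  classical
  induction C using Finset.induction_on with
  | empty => exact ⟨∅, by simp, by simp⟩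
  | insert c C _ ih =>
    obtain ⟨F, hF, h1⟩ := ih fun c hc => hC c (Finset.mem_insert_of_mem hc)
    obtain ⟨G, hG, h2⟩ := kA_finite t (hC c (Finset.mem_insert_self _ _))
    refine ⟨F ∪ G, by simp [hF, hG], fun d hd => ?_⟩
    rcases Finset.mem_insert.1 hd with rfl | hd
    · exact kA_mono t (by exact_mod_cast Finset.subset_union_right) h2
    · exact kA_mono t (by exact_mod_cast Finset.subset_union_left) (h1 d hd)

theorem hcoeffs_hmap {k : Type u} [Field k] [DecidableEq k] (k0 : Subfield k) (q : HH k0) :
    ∀ c ∈ hcoeffs (hmap k0.subtype q), c ∈ k0 := by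
  have key : ∀ p : MvPolynomial (Option (Option ℕ)) k0,
      ∀ c ∈ (MvPolynomial.map k0.subtype p).support.image
        (fun m => (MvPolynomial.map k0.subtype p).coeff m), c ∈ k0 := by
    intro p c hc
    obtain ⟨m, -, rfl⟩ := Finset.mem_image.1 hc
    rw [MvPolynomial.coeff_map]
    exact (p.coeff m).2
  intro c hc
  simp only [hcoeffs, Finset.mem_union] at hc
  rcases hc with ((hc | hc) | hc) | hc
  · exact key _ c hc
  · exact key _ c hc
  · exact key _ c hc
  · exact key _ c hc

/-- The pair of rings: `M` embeds in `N` in such a way that every finite tuple of `M` together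
with a point of `N` can be moved by an automorphism of `N` fixing the tuple and moving the point
into `M`; `M` is residually a division ring; some nonzero element of `N` is killed by all
homomorphisms of `N` onto division rings. -/
theorem exists_pair : ∃ (M N : Type u) (_ : Ring M) (_ : Ring N) (φ : M →+* N),
    Function.Injective φ ∧
    (∀ (n : ℕ) (x : Fin n → M) (a : N), ∃ σ : N ≃+* N,
      (∀ i, σ (φ (x i)) = φ (x i)) ∧ ∃ b : M, σ a = φ b) ∧
    (∀ r : M, r ≠ 0 → ∃ (D : Type u) (_ : DivisionRing D) (f : M →+* D),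
      Function.Surjective f ∧ f r ≠ 0) ∧
    (∃ s : N, s ≠ 0 ∧ ∀ (D : Type u) (_ : DivisionRing D) (f : N →+* D),
      Function.Surjective f → f s = 0) := by
  classical
  let T : Type u := ULift.{u} (Set ℕ)
  let T0 : Set T := Set.range (fun n : ℕ => (ULift.up {n} : T))
  have hinj0 : Function.Injective (fun n : ℕ => (ULift.up {n} : T)) := by
    intro a b h
    have := congrArg ULift.down h
    simpa using this
  have hT0inf : T0.Infinite := Set.infinite_range_of_injective hinj0
  have hT0c : T0.Countable := Set.countable_range _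
  obtain ⟨k, _, _, _, t, ht, hσ, hgen⟩ := exists_field T
  have hunc : Uncountable k := by
    have : Uncountable T := by
      have h1 : Uncountable (Set ℕ) := by
        rw [← Cardinal.aleph0_lt_mk_iff]
        simpa using Cardinal.aleph0_lt_continuum
      exact Equiv.ulift.uncountable_iff.2 h1
    exact ht.uncountable
  let k0 : Subfield k := kA t T0
  have hk0 : Countable k0 := kA_countable t hT0c
  have : CharP k0 2 := inferInstance
  refine ⟨HH k0, HH k, inferInstance, inferInstance, hmap k0.subtype,
    hmap_injective _ Subtype.val_injective, ?_, ?_, ?_⟩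
  · intro n x a
    let C : Finset k := Finset.univ.biUnion fun i : Fin n => hcoeffs (hmap k0.subtype (x i))
    have hC : ∀ c ∈ C, c ∈ kA t T0 := by
      intro c hc
      obtain ⟨i, -, hi⟩ := Finset.mem_biUnion.1 hc
      exact hcoeffs_hmap k0 (x i) c hi
    obtain ⟨F, hF, hCF⟩ := kA_finset t T0 C hC
    obtain ⟨G, -, hG⟩ := kA_finset t Set.univ (hcoeffs a) fun c _ => hgen c
    obtain ⟨π, hπ1, hπ2⟩ := exists_perm T0 hT0inf F G hF
    obtain ⟨σ, hσπ⟩ := hσ π
    refine ⟨haut σ, fun i => haut_fixed σ _ fun c hc => ?_, ?_⟩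
    · refine kA_fixed t (A := (F : Set T)) σ (fun j hj => ?_)
        (hCF c (Finset.mem_biUnion.2 ⟨i, Finset.mem_univ _, hc⟩))
      rw [hσπ, hπ1 j hj]
    · refine haut_mem_range k0 σ a fun c hc => ?_
      exact kA_map t (A := (G : Set T)) σ (fun j hj => ⟨π j, hπ2 j hj, (hσπ j).symm⟩) (hG c hc)
  · intro r hr
    exact exists_quotient k0 r hr
  · refine ⟨⟨0, 0, 1, 0⟩, ?_, fun D _ f hf => kills_j k D f hf⟩
    intro h
    have := congrArg QuaternionAlgebra.imJ h
    simp at this

end Pool.Agent.Helper83
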